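import Mathlib
import Pool.Agent.Helper669.Forcing

/-!
# Names of forcing notions, two-step iterations, half-Cohen reals
-/

namespace Pool.Agent.H458R3.HC

open Pool.Agent.Helper669.Forcing

universe u v

/-- A `P`-name of a forcing notion. In the extension by a generic filter `G ⊆ P` it denotes the set
of all `c` in `C` such that `mem c` meets `G`, with the order `a ≤ b` iff `le a b` meets `G`. (Every
forcing notion of the extension is isomorphic to one whose underlying set is a subset of a set of
the ground model, and so has a name of this kind.) -/
structure PosetName (P : Type u) [Preorder P] where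
  /-- the set of the possible elements -/
  C : Type u
  /-- `c` belongs to the forcing notion -/
  mem : C → Set P
  /-- `a` is at most `b` -/
  le : C → C → Set P
  /-- it is forced that the order is reflexive -/
  refl : ∀ c p, p ∈ meets (mem c) → p ∈ meets (le c c)
  /-- it is forced that the order is transitive -/
  trans : ∀ a b c p, p ∈ meets (le a b) → p ∈ meets (le b c) → p ∈ meets (le a c)

/-- The two-step iteration `P * Q`: the pairs of `p ∈ P` and of `c` such that `p` forces that `c` is
in `Q`. -/
structure Iter (P : Type u) [Preorder P] (Q : PosetName P) : Type u where
  /-- the condition of `P` -/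
  fst : P
  /-- the condition of `Q` -/
  snd : Q.C
  /-- it is forced to be one -/
  mem : fst ∈ meets (Q.mem snd)

/-- `(p, a) ≤ (q, b)` iff `p ≤ q` and `p` forces that `a ≤ b`. -/
instance (P : Type u) [Preorder P] (Q : PosetName P) : Preorder (Iter P Q) where
  le x y := x.fst ≤ y.fst ∧ x.fst ∈ meets (Q.le x.snd y.snd)
  le_refl x := ⟨le_rfl, Q.refl _ _ x.mem⟩
  le_trans _ _ _ hxy hyz :=
    ⟨hxy.1.trans hyz.1, Q.trans _ _ _ _ hxy.2 (down_meets _ _ hyz.2 _ hxy.1)⟩

section

variable {P : Type u} [Preorder P]

/-- There are infinitely many `n` at which the named functions `c` and `d` have the same value. -/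
def AgreeInf (c d : ℕ → ℕ → Set P) : Set P :=
  fall fun m : ℕ => fex fun n : ℕ => fex fun _ : m ≤ n => fex fun a : ℕ =>
    fand (meets (c n a)) (meets (d n a))

/-- the canonical name of a function of the ground model -/
def check (f : ℕ → ℕ) : ℕ → ℕ → Set P := fun n a => fground (f n = a)

/-- The function named by `c` agrees with every function of the ground model at infinitely many
places: it is half-Cohen over the ground model. -/
def HalfCohen (c : ℕ → ℕ → Set P) : Set P := fall fun f : ℕ → ℕ => AgreeInf c (check f)

end

/-- The forcing `P` adds no half-Cohen real: no condition forces of some name that it is a function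
from `ω` to `ω` which is half-Cohen over the ground model. -/
def AddsNoHalfCohen (P : Type u) [Preorder P] : Prop :=
  ∀ (c : ℕ → ℕ → Set P) (p : P), p ∉ fand (IsFun c) (HalfCohen c)

/-- The forcing `P` adds a half-Cohen real: there is a name which is forced to be a function from
`ω` to `ω` which is half-Cohen over the ground model. -/
def AddsHalfCohen (P : Type u) [Preorder P] : Prop :=
  ∃ c : ℕ → ℕ → Set P, ∀ p, p ∈ fand (IsFun c) (HalfCohen c)

section

variable {P : Type u} [Preorder P]

/-- A `P`-name, as a name for the iteration `P * Q`: the generic filter of `P` meets `f n a` iff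
the generic filter of `P * Q` meets the set of all conditions whose first component is below a
member of `f n a`. -/
def lift (Q : PosetName P) (f : ℕ → ℕ → Set P) : ℕ → ℕ → Set (Iter P Q) :=
  fun n a => {x | ∃ p ∈ f n a, x.fst ≤ p}

/-- The function named by `c` in the extension by `P * Q` agrees at infinitely many places with
every function `f` from `ω` to `ω` of the intermediate extension by `P`: it is half-Cohen over this
intermediate extension. -/
def HalfCohenOver (Q : PosetName P) (c : ℕ → ℕ → Set (Iter P Q)) : Set (Iter P Q) :=
  fall fun f : ℕ → ℕ → Set P => fimp (IsFun (lift Q f)) (AgreeInf c (lift Q f))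

end

/-- It is forced by `P` that `Q` adds no half-Cohen real over the extension by `P`: no condition of
`P * Q` forces of some name that it is a function from `ω` to `ω` which is half-Cohen over the
extension by `P`. (If some condition `p` of `P` forced that some condition of `Q` forces that some
name is half-Cohen, then there would be such a condition of `P * Q`, and conversely.) -/
def ForcesAddsNoHalfCohen (P : Type u) [Preorder P] (Q : PosetName P) : Prop :=
  ∀ (c : ℕ → ℕ → Set (Iter P Q)) (x : Iter P Q), x ∉ fand (IsFun c) (HalfCohenOver Q c)

end Pool.Agent.H458R3.HC
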