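import Pool.Agent.H458R3.HC.Laver
import Pool.Agent.H458R3.HC.Defs

/-!
# The iteration
-/

namespace Pool.Agent.H458R3.HC

open Set Pool.Agent.Helper669.Forcing

/-- Conditions of Laver forcing with a name (read from the nodes of the tree) of a partial function
whose domain has an infinite complement and which is bounded by the generic sequence. -/
structure RR where
  stem : List ℕ
  A : List ℕ → Set ℕ
  inf : ∀ u, (A u).Infinite
  g : List ℕ → ℕ → Option ℕ
  mono : ∀ u k n v, Reach A stem u → k ∈ A u → g u n = some v → g (k :: u) n = some v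
  bdd : ∀ u n v, Reach A stem u → g u n = some v → n < u.length ∧ v ≤ co u n
  free : ∀ β : ℕ → List ℕ, Reach A stem (β 0) → (∀ i, Reach A (β i) (β (i + 1))) →
    ∀ m, ∃ n, m ≤ n ∧ ∀ i, g (β i) n = none

/-- the condition of Laver forcing -/
def RR.pr (r : RR) : Laver := ⟨r.stem, r.A, r.inf⟩

instance : Preorder RR where
  le r' r := r'.pr ≤ r.pr ∧ ∀ u n v, Reach r'.A r'.stem u → r.g u n = some v → r'.g u n = some v
  le_refl r := ⟨le_rfl, fun _ _ _ _ h => h⟩
  le_trans a b c hab hbc := ⟨hab.1.trans hbc.1, fun u n v hu h =>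
    hab.2 u n v hu (hbc.2 u n v (Laver.reach_of_le hab.1 hu) h)⟩

theorem RR.le_def {r' r : RR} : r' ≤ r ↔ r'.pr ≤ r.pr ∧
    ∀ u n v, Reach r'.A r'.stem u → r.g u n = some v → r'.g u n = some v := Iff.rfl

theorem RR.pr_mono {r' r : RR} (h : r' ≤ r) : r'.pr ≤ r.pr := h.1

theorem RR.reach_of_le {r' r : RR} (h : r' ≤ r) {u : List ℕ} (hu : Reach r'.A r'.stem u) :
    Reach r.A r.stem u := Laver.reach_of_le (p := r'.pr) (q := r.pr) h.1 hu

theorem RR.reach_stem {r' r : RR} (h : r' ≤ r) : Reach r.A r.stem r'.stem := h.1.1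

theorem RR.A_subset {r' r : RR} (h : r' ≤ r) {u : List ℕ} (hu : Reach r'.A r'.stem u) :
    r'.A u ⊆ r.A u := h.1.2 u hu

/-- the name along a path -/
theorem RR.mono' (r : RR) {u w : List ℕ} (hu : Reach r.A r.stem u) (hw : Reach r.A u w)
    {n v : ℕ} (h : r.g u n = some v) : r.g w n = some v := by
  induction hw with
  | refl => exact h
  | step hw hk ih => exact r.mono _ _ _ _ (hu.trans hw) hk ih

/-- restriction to a stronger condition of Laver forcing -/
def RR.res (r : RR) (p : Laver) (h : p ≤ r.pr) : RR where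
  stem := p.stem
  A := p.A
  inf := p.inf
  g := r.g
  mono u k n v hu hk hg :=
    r.mono u k n v (Laver.reach_of_le (q := r.pr) h hu) (h.2 u hu hk) hg
  bdd u n v hu hg := r.bdd u n v (Laver.reach_of_le (q := r.pr) h hu) hg
  free β h0 hβ m := by
    have hr : ∀ i, Reach p.A p.stem (β i) := by
      intro i
      induction i with
      | zero => exact h0
      | succ i ih => exact ih.trans (hβ i)
    exact r.free β (Laver.reach_of_le (q := r.pr) h h0)
      (fun i => (hβ i).mono fun v hv => h.2 v ((hr i).trans hv)) m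

theorem RR.res_le (r : RR) (p : Laver) (h : p ≤ r.pr) : r.res p h ≤ r :=
  ⟨h, fun _ _ _ _ h => h⟩

theorem RR.pr_res (r : RR) (p : Laver) (h : p ≤ r.pr) : (r.res p h).pr = p := rfl

/-- moving to a longer stem -/
def RR.mv (r : RR) (u : List ℕ) (h : Reach r.A r.stem u) : RR :=
  r.res (r.pr.mv u) (Laver.mv_le (p := r.pr) h)

theorem RR.mv_le (r : RR) (u : List ℕ) (h : Reach r.A r.stem u) : r.mv u h ≤ r :=
  r.res_le _ _

/-- giving values to the coordinates in `Φ` -/
def RR.asg (r : RR) (Φ : Finset ℕ) (a : ℕ → ℕ) : RR where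
  stem := r.stem
  A := r.A
  inf := r.inf
  g u n := if n ∈ Φ ∧ n < u.length then some (min (a n) (co u n)) else r.g u n
  mono u k n v hu hk hg := by
    by_cases h : n ∈ Φ ∧ n < u.length
    · rw [if_pos h] at hg
      have h' : n ∈ Φ ∧ n < (k :: u).length := ⟨h.1, h.2.trans (by simp)⟩
      rw [if_pos h', co_cons h.2]
      exact hg
    · rw [if_neg h] at hg
      have h1 := r.bdd u n v hu hg
      have h' : ¬ (n ∈ Φ ∧ n < (k :: u).length) := fun hh => h ⟨hh.1, h1.1⟩
      rw [if_neg h']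
      exact r.mono u k n v hu hk hg
  bdd u n v hu hg := by
    by_cases h : n ∈ Φ ∧ n < u.length
    · rw [if_pos h] at hg
      refine ⟨h.2, ?_⟩
      rw [← Option.some.inj hg]
      exact min_le_right _ _
    · rw [if_neg h] at hg
      exact r.bdd u n v hu hg
  free β h0 hβ m := by
    obtain ⟨n, hn, hn'⟩ := r.free β h0 hβ (max m (Φ.sup id + 1))
    refine ⟨n, (le_max_left _ _).trans hn, fun i => ?_⟩
    have h : ¬ (n ∈ Φ ∧ n < (β i).length) := by
      rintro ⟨h1, _⟩
      have h2 : n ≤ Φ.sup id := Finset.le_sup (f := id) h1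
      have h3 := (le_max_right _ _).trans hn
      omega
    rw [if_neg h]
    exact hn' i

/-- the coordinates in `Φ` are free -/
def RR.Free (r : RR) (Φ : Finset ℕ) : Prop := ∀ u, Reach r.A r.stem u → ∀ n ∈ Φ, r.g u n = none

theorem RR.asg_le {r : RR} {Φ : Finset ℕ} (h : r.Free Φ) (a : ℕ → ℕ) : r.asg Φ a ≤ r := by
  refine ⟨le_rfl, fun u n v hu hg => ?_⟩
  have h' : ¬ (n ∈ Φ ∧ n < u.length) := by
    rintro ⟨h1, _⟩
    rw [h u hu n h1] at hg
    cases hg
  show (if n ∈ Φ ∧ n < u.length then some (min (a n) (co u n)) else r.g u n) = some v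
  rw [if_neg h']
  exact hg

theorem RR.asg_mono {r' r : RR} (h : r' ≤ r) (Φ : Finset ℕ) (a : ℕ → ℕ) :
    r'.asg Φ a ≤ r.asg Φ a := by
  refine ⟨h.1, fun u n v hu hg => ?_⟩
  have hg' : (if n ∈ Φ ∧ n < u.length then some (min (a n) (co u n)) else r.g u n) = some v := hg
  show (if n ∈ Φ ∧ n < u.length then some (min (a n) (co u n)) else r'.g u n) = some v
  by_cases h' : n ∈ Φ ∧ n < u.length
  · rw [if_pos h'] at hg' ⊢
    exact hg'
  · rw [if_neg h'] at hg' ⊢
    exact h.2 u n v hu hg'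

/-- making the coordinates in `Φ` free -/
def RR.unasg (r : RR) (Φ : Finset ℕ) : RR where
  stem := r.stem
  A := r.A
  inf := r.inf
  g u n := if n ∈ Φ then none else r.g u n
  mono u k n v hu hk hg := by
    by_cases h : n ∈ Φ
    · rw [if_pos h] at hg; cases hg
    · rw [if_neg h] at hg ⊢
      exact r.mono u k n v hu hk hg
  bdd u n v hu hg := by
    by_cases h : n ∈ Φ
    · rw [if_pos h] at hg; cases hg
    · rw [if_neg h] at hg
      exact r.bdd u n v hu hg
  free β h0 hβ m := by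
    obtain ⟨n, hn, hn'⟩ := r.free β h0 hβ m
    refine ⟨n, hn, fun i => ?_⟩
    split_ifs
    · rfl
    · exact hn' i

theorem RR.unasg_free (r : RR) (Φ : Finset ℕ) : (r.unasg Φ).Free Φ := by
  intro u _ n hn
  show (if n ∈ Φ then none else r.g u n) = none
  rw [if_pos hn]

theorem RR.unasg_le {q r : RR} {Φ : Finset ℕ} {a : ℕ → ℕ} (h : q ≤ r.asg Φ a) (hr : r.Free Φ) :
    q.unasg Φ ≤ r := by
  refine ⟨h.1, fun u n v hu hg => ?_⟩
  have hn : n ∉ Φ := by
    intro hn
    rw [hr u (RR.reach_of_le h hu) n hn] at hg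
    cases hg
  show (if n ∈ Φ then none else q.g u n) = some v
  rw [if_neg hn]
  refine h.2 u n v hu ?_
  show (if n ∈ Φ ∧ n < u.length then some (min (a n) (co u n)) else r.g u n) = some v
  rw [if_neg (fun hh => hn hh.1)]
  exact hg

theorem RR.asg_unasg_le {q r : RR} {Φ : Finset ℕ} {a : ℕ → ℕ} (h : q ≤ r.asg Φ a) :
    (q.unasg Φ).asg Φ a ≤ q := by
  refine ⟨le_rfl, fun u n v hu hg => ?_⟩
  show (if n ∈ Φ ∧ n < u.length then some (min (a n) (co u n)) else
    if n ∈ Φ then none else q.g u n) = some v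
  by_cases hn : n ∈ Φ
  · have h1 := q.bdd u n v hu hg
    rw [if_pos ⟨hn, h1.1⟩]
    have h2 : (r.asg Φ a).g u n = some (min (a n) (co u n)) := by
      show (if n ∈ Φ ∧ n < u.length then some (min (a n) (co u n)) else r.g u n) = _
      rw [if_pos ⟨hn, h1.1⟩]
    have h3 := h.2 u n _ hu h2
    rw [← h3, hg]
  · rw [if_neg (fun hh => hn hh.1), if_neg hn]
    exact hg

/-- paths can be prolonged -/
theorem exists_long {A : List ℕ → Set ℕ} (hA : ∀ u, (A u).Infinite) (u : List ℕ) (n : ℕ) :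
    ∃ w, Reach A u w ∧ n < w.length := by
  induction n with
  | zero =>
    obtain ⟨k, hk⟩ := (hA u).nonempty
    exact ⟨k :: u, Reach.refl.step hk, by simp⟩
  | succ n ih =>
    obtain ⟨w, hw, hn⟩ := ih
    obtain ⟨k, hk⟩ := (hA w).nonempty
    exact ⟨k :: w, hw.step hk, by simpa using hn⟩

/-- coordinates that are free above some node -/
theorem RR.exists_free (r : RR) (m : ℕ) : ∃ u, Reach r.A r.stem u ∧ ∃ n, m ≤ n ∧ n < u.length ∧
    ∀ w, Reach r.A u w → r.g w n = none := by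
  have h1 : ∃ u, Reach r.A r.stem u ∧ ∃ n, m ≤ n ∧ ∀ w, Reach r.A u w → r.g w n = none := by
    by_contra hcon
    push Not at hcon
    choose! F hF1 hF2 using fun (u : {u // Reach r.A r.stem u}) (n : ℕ) (hn : m ≤ n) =>
      hcon u.1 u.2 n hn
    let G : {u // Reach r.A r.stem u} → ℕ → {u // Reach r.A r.stem u} := fun u n =>
      if h : m ≤ n then ⟨F u n, u.2.trans (hF1 u n h)⟩ else u
    let β : ℕ → {u // Reach r.A r.stem u} := fun i => Nat.rec ⟨r.stem, Reach.refl⟩
      (fun i u => G u (m + i)) i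
    have hβ : ∀ i, β (i + 1) = G (β i) (m + i) := fun i => rfl
    have hG : ∀ u i, (G u (m + i)).1 = F u (m + i) := by
      intro u i
      have : m ≤ m + i := Nat.le_add_right _ _
      simp only [G, this, dif_pos]
    obtain ⟨n, hn, hn'⟩ := r.free (fun i => (β i).1) Reach.refl (fun i => by
      show Reach r.A (β i).1 (β (i + 1)).1
      rw [hβ, hG]
      exact hF1 _ _ (Nat.le_add_right _ _)) m
    obtain ⟨i, rfl⟩ := Nat.exists_eq_add_of_le hn
    have h2 : r.g (β (i + 1)).1 (m + i) = none := hn' (i + 1)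
    rw [hβ, hG] at h2
    exact hF2 (β i) (m + i) (Nat.le_add_right _ _) h2
  obtain ⟨u, hu, n, hn, h⟩ := h1
  obtain ⟨w, hw, hwn⟩ := exists_long r.inf u n
  exact ⟨w, hu.trans hw, n, hn, hwn, fun y hy => h y (hw.trans hy)⟩

/-- deciding a coordinate -/
theorem RR.exists_decide (r : RR) (n : ℕ) : ∃ r' ≤ r, ∃ v, r'.g r'.stem n = some v := by
  obtain ⟨u, hu, hn⟩ := exists_long r.inf r.stem n
  by_cases h : ∃ w, Reach r.A u w ∧ r.g w n ≠ none
  · obtain ⟨w, hw, hg⟩ := h
    obtain ⟨v, hv⟩ := Option.ne_none_iff_exists'.1 hg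
    exact ⟨r.mv w (hu.trans hw), r.mv_le _ _, v, hv⟩
  · push Not at h
    have hfree : (r.mv u hu).Free {n} := by
      intro w hw m hm
      rw [Finset.mem_singleton] at hm
      subst hm
      exact h w hw
    refine ⟨(r.mv u hu).asg {n} fun _ => 0, (RR.asg_le hfree _).trans (r.mv_le _ _),
      min 0 (co u n), ?_⟩
    show (if n ∈ ({n} : Finset ℕ) ∧ n < u.length then some (min 0 (co u n)) else r.g u n) = _
    rw [if_pos ⟨Finset.mem_singleton_self n, hn⟩]

/-- deciding finitely many coordinates -/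
theorem RR.exists_decide_fin (r : RR) (Φ : Finset ℕ) :
    ∃ r' ≤ r, ∀ n ∈ Φ, ∃ v, r'.g r'.stem n = some v := by
  classical
  induction Φ using Finset.induction_on with
  | empty => exact ⟨r, le_rfl, fun n hn => absurd hn (Finset.notMem_empty n)⟩
  | insert n Φ hn ih =>
    obtain ⟨r1, h1, h2⟩ := ih
    obtain ⟨r2, h3, v, hv⟩ := r1.exists_decide n
    refine ⟨r2, h3.trans h1, fun m hm => ?_⟩
    rcases Finset.mem_insert.1 hm with rfl | hm
    · exact ⟨v, hv⟩
    · obtain ⟨v', hv'⟩ := h2 m hm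
      refine ⟨v', h3.2 _ _ _ Reach.refl (r1.mono' Reach.refl (RR.reach_stem h3) hv')⟩

/-- Meeting a dense set for finitely many assignments at once. -/
theorem RR.exists_dense_fin {D : Set RR} (hD : ∀ r ∈ D, ∀ r' ≤ r, r' ∈ D) (r : RR)
    (hd : ∀ r' ≤ r, ∃ r'' ≤ r', r'' ∈ D) (Φ : Finset ℕ) (hΦ : r.Free Φ)
    (S : Finset (ℕ → ℕ)) : ∃ q ≤ r, q.Free Φ ∧ ∀ a ∈ S, q.asg Φ a ∈ D := by
  classical
  induction S using Finset.induction_on with
  | empty => exact ⟨r, le_rfl, hΦ, fun n hn => absurd hn (Finset.notMem_empty n)⟩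
  | insert a S _ ih =>
    obtain ⟨q, h1, h2, h3⟩ := ih
    obtain ⟨q', h4, h5⟩ := hd (q.asg Φ a) ((RR.asg_le h2 a).trans h1)
    have h6 : q'.unasg Φ ≤ q := RR.unasg_le h4 h2
    refine ⟨q'.unasg Φ, h6.trans h1, q'.unasg_free Φ, fun b hb => ?_⟩
    rcases Finset.mem_insert.1 hb with rfl | hb
    · exact hD _ h5 _ (RR.asg_unasg_le h4)
    · exact hD _ (h3 b hb) _ (RR.asg_mono h6 Φ b)

/-! ### The name of the second forcing notion -/

/-- the quotient of `RR` by the generic filter of Laver forcing -/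
def QQ : PosetName Laver where
  C := RR
  mem r := {p | p ≤ r.pr}
  le r' r := fground (r' ≤ r)
  refl c p _ := meets_of_mem (show c ≤ c from le_rfl)
  trans a b c p h h' := by
    obtain ⟨_, _, _, h1, _⟩ := h p le_rfl
    obtain ⟨_, _, _, h2, _⟩ := h' p le_rfl
    have h1 : a ≤ b := h1
    have h2 : b ≤ c := h2
    exact meets_of_mem (show a ≤ c from h1.trans h2)

/-- the conditions of the iteration given by the elements of `RR` -/
def io (r : RR) : Iter Laver QQ := ⟨r.pr, r, meets_of_mem (show r.pr ≤ r.pr from le_rfl)⟩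

theorem io_le {r' r : RR} : io r' ≤ io r ↔ r' ≤ r := by
  constructor
  · rintro ⟨_, h⟩
    obtain ⟨_, _, _, h1, _⟩ := h _ le_rfl
    exact h1
  · intro h
    exact ⟨h.1, meets_of_mem h⟩

theorem exists_io (x : Iter Laver QQ) : ∃ r : RR, io r ≤ x := by
  obtain ⟨q, hq, s, hs, hqs⟩ := x.mem x.fst le_rfl
  have h1 : q ≤ x.snd.pr := hqs.trans hs
  refine ⟨x.snd.res q h1, hq, meets_of_mem ?_⟩
  exact x.snd.res_le q h1

end Pool.Agent.H458R3.HC
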