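import Pool.Agent.H458R3.HC.Fusion
import Pool.Agent.H458R3.HC.RR

/-!
# Laver forcing adds no half-Cohen real, the iteration adds one
-/

namespace Pool.Agent.H458R3.HC

open Set Pool.Agent.Helper669.Forcing

/-- Laver forcing adds no half-Cohen real -/
theorem laver_addsNo : AddsNoHalfCohen Laver := by
  intro c p hp
  obtain ⟨q, hq, h, hh⟩ := laver_avoid c p hp.1
  have h1 : p ∈ AgreeInf c (check h) := hp.2 h
  obtain ⟨r, hr, n, h2⟩ := mem_fex.1 (h1 0) q hq
  obtain ⟨r2, hr2, _, h3⟩ := mem_fex.1 h2 r le_rfl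
  obtain ⟨r3, hr3, a, h4, h5⟩ := mem_fex.1 h3 r2 le_rfl
  obtain ⟨_, _, _, h6, _⟩ := h5 r3 le_rfl
  have h6 : h n = a := h6
  subst h6
  exact hh n r3 (hr3.trans (hr2.trans hr)) h4

/-- the sets from which the entries of a reachable sequence are taken -/
theorem Reach.co_mem {A : List ℕ → Set ℕ} {s u : List ℕ} (h : Reach A s u) {n : ℕ}
    (h1 : s.length ≤ n) (h2 : n < u.length) : ∃ v, v.length = n ∧ co u n ∈ A v := by
  induction h with
  | refl => omega
  | @step u k h hk ih =>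
    by_cases h3 : n < u.length
    · obtain ⟨v, hv, hv'⟩ := ih h3
      exact ⟨v, hv, by rw [co_cons h3]; exact hv'⟩
    · have h4 : n = u.length := by
        have : (k :: u).length = u.length + 1 := rfl
        omega
      subst h4
      exact ⟨u, rfl, by rw [co_cons_self]; exact hk⟩

/-- the name of the half-Cohen real -/
def cname : ℕ → ℕ → Set (Iter Laver QQ) := fun n v => {x | ∃ r : RR, x = io r ∧
  r.g r.stem n = some v}

theorem RR.g_of_le {r' r : RR} (h : r' ≤ r) {n v : ℕ} (hg : r.g r.stem n = some v) :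
    r'.g r'.stem n = some v :=
  h.2 _ _ _ Reach.refl (r.mono' Reach.refl (RR.reach_stem h) hg)

theorem iter_adds : AddsHalfCohen (Iter Laver QQ) := by
  classical
  refine ⟨cname, fun x => ⟨⟨fun n => mem_fex.2 fun y _ => ?_, fun n v v' => mem_fimp.2
    fun y _ hy => ⟨y, le_rfl, ?_⟩⟩, fun f m => mem_fex.2 fun y _ => ?_⟩⟩
  · obtain ⟨r, hr⟩ := exists_io y
    obtain ⟨r', hr', v, hv⟩ := r.exists_decide n
    exact ⟨io r', (io_le.2 hr').trans hr, v, meets_of_mem ⟨r', rfl, hv⟩⟩
  · obtain ⟨z1, hz1, _, ⟨r1, rfl, h1⟩, hs1⟩ := hy.1 y le_rfl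
    obtain ⟨z2, hz2, _, ⟨r2, rfl, h2⟩, hs2⟩ := hy.2 z1 hz1
    obtain ⟨r, hr⟩ := exists_io z2
    have h3 := RR.g_of_le (io_le.1 (hr.trans (hz2.trans hs1))) h1
    have h4 := RR.g_of_le (io_le.1 (hr.trans hs2)) h2
    rw [h3] at h4
    exact Option.some.inj h4
  · obtain ⟨r, hr⟩ := exists_io y
    let B : List ℕ → Set ℕ := fun u => r.A u \ {k | k < f u.length}
    have hB : ∀ u, (B u).Infinite := fun u => (r.inf u).sdiff (Set.finite_lt_nat _)
    have hle : (⟨r.stem, B, hB⟩ : Laver) ≤ r.pr := ⟨Reach.refl, fun u _ => Set.sdiff_subset⟩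
    let r1 := r.res ⟨r.stem, B, hB⟩ hle
    obtain ⟨u, hu, n, hmn, hnu, hfr⟩ := r1.exists_free (max m r.stem.length)
    have hfree : (r1.mv u hu).Free {n} := by
      intro w hw k hk
      rw [Finset.mem_singleton] at hk
      subst hk
      exact hfr w hw
    let r2 := (r1.mv u hu).asg {n} f
    have h2 : r2 ≤ r := (RR.asg_le hfree f).trans ((r1.mv_le u hu).trans (r.res_le _ _))
    have h3 : r2.g r2.stem n = some (f n) := by
      show (if n ∈ ({n} : Finset ℕ) ∧ n < u.length then some (min (f n) (co u n)) else _) = _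
      rw [if_pos ⟨Finset.mem_singleton_self n, hnu⟩]
      obtain ⟨v, hv, hv'⟩ := hu.co_mem ((le_max_right _ _).trans hmn) hnu
      have h4 : f v.length ≤ co u n := not_lt.1 hv'.2
      rw [hv] at h4
      rw [min_eq_left h4]
    refine ⟨io r2, (io_le.2 h2).trans hr, n, mem_fex_of_mem ((le_max_left _ _).trans hmn)
      (down_fex _) (mem_fex_of_mem (f n) (down_fand (down_meets _) (down_meets _))
      ⟨meets_of_mem ⟨r2, rfl, h3⟩, meets_of_mem (show f n = f n from rfl)⟩)⟩

end Pool.Agent.H458R3.HC
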