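import Pool.Agent.H458R3.HC.NoHC
import Pool.Agent.H458R3.HC.Adds

/-!
# The second forcing notion adds no half-Cohen real over the intermediate extension, end of the proof
-/

namespace Pool.Agent.H458R3.HC

open Set Pool.Agent.Helper669.Forcing

/-- one more value can be decided -/
theorem exists_grow {c : ℕ → ℕ → Set (Iter Laver QQ)} {r0 : RR} (hc : io r0 ∈ IsFun c)
    (s : Stg c r0) {q : Laver} (hq : q ≤ s.r.pr) : ∃ s' ≤ s, s.k < s'.k ∧ s'.r.pr ≤ q := by
  classical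
  let r1 := s.r.res q hq
  have hr1 : r1 ≤ s.r := s.r.res_le q hq
  have hf1 : r1.Free s.Φ := fun u hu n hn => s.free u (RR.reach_of_le hr1 hu) n hn
  let D : Set RR := {r | ∃ v, io r ∈ meets (c s.k v)}
  have hD : ∀ r ∈ D, ∀ r' ≤ r, r' ∈ D := by
    rintro r ⟨v, hv⟩ r' hr'
    exact ⟨v, down_meets _ _ hv _ (io_le.2 hr')⟩
  have hd : ∀ r' ≤ r1, ∃ r'' ≤ r', r'' ∈ D := by
    intro r' hr'
    have h1 : io r' ∈ IsFun c := down_IsFun c _ hc _ (io_le.2 (hr'.trans (hr1.trans s.le)))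
    obtain ⟨y, hy, v, hv⟩ := IsFun.total h1 s.k
    obtain ⟨r'', hr''⟩ := exists_io y
    exact ⟨r'', io_le.1 (hr''.trans hy), v, down_meets _ _ hv _ hr''⟩
  let e : (s.Φ → ℕ) → ℕ → ℕ := fun b n => if h : n ∈ s.Φ then b ⟨n, h⟩ else 0
  let S : Finset (ℕ → ℕ) :=
    (Fintype.piFinset fun i : s.Φ => Finset.range (co s.r.stem i + 1)).image e
  obtain ⟨q1, hq1, hf2, hq1D⟩ := RR.exists_dense_fin hD r1 hd s.Φ hf1 S
  have hq1s : q1 ≤ s.r := hq1.trans hr1
  choose! val hval using hq1D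
  obtain ⟨u, hu, n', hmn, hnu, hfr⟩ := q1.exists_free (s.Φ.sup id + 1)
  have hn' : n' ∉ s.Φ := by
    intro h
    have : n' ≤ s.Φ.sup id := Finset.le_sup (f := id) h
    omega
  have hsu : Reach s.r.A s.r.stem u := RR.reach_of_le hq1s hu
  have hr2 : q1.mv u hu ≤ q1 := q1.mv_le u hu
  have hf3 : (q1.mv u hu).Free (insert n' s.Φ) := by
    intro w hw n hn
    rcases Finset.mem_insert.1 hn with rfl | hn
    · exact hfr w hw
    · exact hf2 w (hu.trans hw) n hn
  have hasg : ∀ a : ℕ → ℕ, ∃ a' ∈ S, q1.asg s.Φ a ≤ q1.asg s.Φ a' := by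
    intro a
    refine ⟨e fun n => min (a n) (co s.r.stem n), Finset.mem_image.2
      ⟨fun n : s.Φ => min (a n) (co s.r.stem n), ?_, rfl⟩, le_rfl, ?_⟩
    · rw [Fintype.mem_piFinset]
      intro n
      rw [Finset.mem_range]
      exact Nat.lt_succ_of_le (min_le_right _ _)
    · intro w n v hw hg
      have hg' : (if n ∈ s.Φ ∧ n < w.length then some (min (e (fun n => min (a n)
        (co s.r.stem n)) n) (co w n)) else q1.g w n) = some v := hg
      show (if n ∈ s.Φ ∧ n < w.length then some (min (a n) (co w n)) else q1.g w n) = some v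
      by_cases h : n ∈ s.Φ ∧ n < w.length
      · rw [if_pos h] at hg' ⊢
        rw [← hg']
        have h1 : e (fun n => min (a n) (co s.r.stem n)) n = min (a n) (co s.r.stem n) := by
          simp only [e, dif_pos h.1]
        have h2 : co w n = co s.r.stem n :=
          (RR.reach_of_le hq1s hw).co_eq (s.lt n h.1)
        rw [h1, h2, min_assoc, min_self]
      · rw [if_neg h] at hg' ⊢
        exact hg'
  refine ⟨⟨q1.mv u hu, insert n' s.Φ, s.k + 1, fun j => if j < s.k then s.M j else S.sup val,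
    hr2.trans (hq1s.trans s.le), by rw [Finset.card_insert_of_notMem hn', s.card], ?_, hf3, ?_⟩,
    ⟨hr2.trans hq1s, Finset.subset_insert _ _, Nat.le_succ _, ?_, ?_⟩, Nat.lt_succ_self _, ?_⟩
  · intro n hn
    show n < u.length
    rcases Finset.mem_insert.1 hn with rfl | hn
    · exact hnu
    · exact (s.lt n hn).trans_le hsu.length_le
  · intro j hj a
    by_cases hjk : j < s.k
    · obtain ⟨v, hv, h1⟩ := s.inv j hjk a
      refine ⟨v, ?_, down_meets _ _ h1 _ (io_le.2 ?_)⟩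
      · rw [if_pos hjk]; exact hv
      · exact RR.asg_le_asg (hr2.trans hq1s) (Finset.subset_insert _ _) hf3 a
    · have hj : j = s.k := by omega
      subst hj
      obtain ⟨a', ha', hle⟩ := hasg a
      refine ⟨val a', ?_, down_meets _ _ (hval a' ha') _ (io_le.2 ?_)⟩
      · rw [if_neg hjk]; exact Finset.le_sup ha'
      · exact (RR.asg_le_asg hr2 (Finset.subset_insert _ _) hf3 a).trans hle
  · intro j hj
    show (if j < s.k then s.M j else S.sup val) = s.M j
    rw [if_pos hj]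
  · intro h
    exact absurd h (Nat.succ_ne_self _)
  · exact (RR.pr_mono hr2).trans (RR.pr_mono hq1)

/-- the values are decided at some node -/
theorem exists_jump {c : ℕ → ℕ → Set (Iter Laver QQ)} {r0 : RR} (hc : io r0 ∈ IsFun c)
    {q : Laver} (hq : q ≤ (rω c r0).pr) :
    ∃ q' ≤ q, (sg c r0 q.stem).k < (sg c r0 q'.stem).k := by
  obtain ⟨k0, hk0⟩ := (q.inf q.stem).nonempty
  have hq1 : q.mv (k0 :: q.stem) ≤ q := Laver.mv_le (Reach.refl.step hk0)
  have hu : Reach (Aω c r0) r0.stem q.stem := hq.1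
  obtain ⟨s', hs', hk, hsq⟩ := exists_grow hc (sg c r0 q.stem)
    (hq1.trans (below_pr hq hu Reach.refl))
  refine ⟨s'.r.pr, hsq.trans hq1, ?_⟩
  show (sg c r0 q.stem).k < (sg c r0 s'.r.stem).k
  have hlen : q.stem.length < s'.r.stem.length := by
    have h1 : (k0 :: q.stem).length ≤ s'.r.stem.length := hsq.1.length_le
    have h2 : (k0 :: q.stem).length = q.stem.length + 1 := rfl
    omega
  have hw : Reach (Aω c r0) q.stem s'.r.stem := Reach.mono (hsq.trans hq1).1 hq.2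
  have hle := sg_le hu hw
  by_contra hcon
  have hkk : (sg c r0 s'.r.stem).k = (sg c r0 q.stem).k :=
    le_antisymm (not_lt.1 hcon) hle.2.2.1
  generalize hw0 : s'.r.stem = w0 at hw hlen hkk hle
  cases hw with
  | refl => exact absurd hlen (lt_irrefl _)
  | @step w k hw hk' =>
    have hreach := sg_reach_cons (hu.trans hw) hk'
    have h1 : (sg c r0 w).mv (k :: w) ≤ sg c r0 w := Stg.mv_le hreach
    have h2 : (sg c r0 w).mv (k :: w) ≤ sg c r0 q.stem := h1.trans (sg_le hu hw)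
    have hst : ((sg c r0 w).mv (k :: w)).r.stem = k :: w := Stg.mv_stem hreach
    have hg := sg_cons (c := c) (k := k) (hu.trans hw)
    have hgle := Stg.grow_le ((sg c r0 w).mv (k :: w))
    have hglt := @Stg.grow_lt c r0 ((sg c r0 w).mv (k :: w)) s'
    rw [hg] at hkk
    generalize (sg c r0 w).mv (k :: w) = s at h1 h2 hst hgle hglt hkk
    have h3 : s.k = (sg c r0 q.stem).k := le_antisymm (hgle.2.2.1.trans hkk.le) h2.2.2.1
    obtain ⟨h4, h5⟩ := h2.2.2.2.2 h3
    have h6 : s.Φ = (sg c r0 q.stem).Φ := by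
      refine (Finset.eq_of_subset_of_card_le h2.2.1 ?_).symm
      rw [s.card, (sg c r0 q.stem).card, h3]
    have h7 : s' ≤ s := by
      refine ⟨⟨?_, fun u n v hu' hg' => ?_⟩, ?_, ?_, fun j hj => ?_, fun h => ?_⟩
      · refine ⟨?_, fun u hu' => ?_⟩
        · show Reach s.r.A s.r.stem s'.r.stem
          rw [hst, hw0]
          exact Reach.refl
        · show s'.r.A u ⊆ s.r.A u
          rw [h5]
          exact hs'.1.1.2 u hu'
      · rw [h4] at hg'
        exact hs'.1.2 u n v hu' hg'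
      · rw [h6]; exact hs'.2.1
      · rw [h3]; exact hk.le
      · rw [h3] at hj
        rw [hs'.2.2.2.1 j hj, h2.2.2.2.1 j hj]
      · omega
    have h8 := hglt h7 (by rw [hst, hw0]) (by rw [h3]; exact hk)
    omega

theorem exists_jumps {c : ℕ → ℕ → Set (Iter Laver QQ)} {r0 : RR} (hc : io r0 ∈ IsFun c)
    {q : Laver} (hq : q ≤ (rω c r0).pr) (k : ℕ) :
    ∃ q' ≤ q, k < (sg c r0 q'.stem).k := by
  induction k with
  | zero =>
    obtain ⟨q', h1, h2⟩ := exists_jump hc hq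
    exact ⟨q', h1, by omega⟩
  | succ k ih =>
    obtain ⟨q1, h1, h2⟩ := ih
    obtain ⟨q', h3, h4⟩ := exists_jump hc (h1.trans hq)
    exact ⟨q', h3.trans h1, by omega⟩

/-- The name for a function that is different everywhere from the function named by `c`. -/
def fname (c : ℕ → ℕ → Set (Iter Laver QQ)) (r0 : RR) : ℕ → ℕ → Set Laver := fun k v =>
  {p | p ≤ (rω c r0).pr ∧ k < (sg c r0 p.stem).k ∧ v = (sg c r0 p.stem).M k + 1}

theorem QQ_addsNo : ForcesAddsNoHalfCohen Laver QQ := by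
  intro c x hx
  obtain ⟨r0, hr0⟩ := exists_io x
  have hc : io r0 ∈ IsFun c := down_IsFun c _ hx.1 _ hr0
  have hωx : io (rω c r0) ≤ x := (io_le.2 rω_le).trans hr0
  have hfun : io (rω c r0) ∈ IsFun (lift QQ (fname c r0)) := by
    refine ⟨fun k => mem_fex.2 fun y hy => ?_,
      fun k v v' => mem_fimp.2 fun y hy hyv => ⟨y, le_rfl, ?_⟩⟩
    · obtain ⟨r, hr⟩ := exists_io y
      have h2 : r.pr ≤ (rω c r0).pr := RR.pr_mono (io_le.1 (hr.trans hy))
      obtain ⟨q', hq', hk⟩ := exists_jumps hc h2 k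
      refine ⟨io (r.res q' hq'), (io_le.2 (r.res_le q' hq')).trans hr,
        (sg c r0 q'.stem).M k + 1, meets_of_mem ?_⟩
      exact ⟨q', ⟨hq'.trans h2, hk, rfl⟩, le_rfl⟩
    · obtain ⟨z1, hz1, p1, hp1, hzp1⟩ := hyv.1 y le_rfl
      obtain ⟨z2, hz2, p2, hp2, hzp2⟩ := hyv.2 z1 hz1
      obtain ⟨p1', ⟨h11, h12, h13⟩, hp1'⟩ := hp1
      obtain ⟨p2', ⟨h21, h22, h23⟩, hp2'⟩ := hp2
      have e1 : (sg c r0 z2.fst.stem).M k = (sg c r0 p1'.stem).M k :=
        (sg_le h11.1 (Reach.mono ((hz2.trans hzp1).1.trans hp1').1 h11.2)).2.2.2.1 k h12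
      have e2 : (sg c r0 z2.fst.stem).M k = (sg c r0 p2'.stem).M k :=
        (sg_le h21.1 (Reach.mono (hzp2.1.trans hp2').1 h21.2)).2.2.2.1 k h22
      show v = v'
      omega
  obtain ⟨y, hy, hya⟩ := mem_fimp.1 (hx.2 (fname c r0)) (io (rω c r0)) hωx hfun
  -- no agreement
  obtain ⟨y1, hy1, n, h2⟩ := mem_fex.1 (hya 0) y le_rfl
  obtain ⟨y2, hy2, _, h3⟩ := mem_fex.1 h2 y1 le_rfl
  obtain ⟨y3, hy3, a, h4, h5⟩ := mem_fex.1 h3 y2 le_rfl
  obtain ⟨y4, hy4, p, hp, hyp⟩ := h5 y3 le_rfl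
  obtain ⟨p', ⟨hp1, hp2, hp3⟩, hpp⟩ := hp
  obtain ⟨z, hz⟩ := exists_io y4
  have hzω : z ≤ rω c r0 :=
    io_le.1 (hz.trans (hy4.trans (hy3.trans (hy2.trans (hy1.trans hy)))))
  have hzp : z.pr ≤ p' := (hz.trans hyp).1.trans hpp
  have hu : Reach (Aω c r0) r0.stem p'.stem := hp1.1
  have hw : Reach (Aω c r0) p'.stem z.stem := Reach.mono hzp.1 hp1.2
  have hzs : z ≤ (sg c r0 p'.stem).r := below hzω hu hw
  obtain ⟨z', hz', hb⟩ := z.exists_decide_fin (sg c r0 p'.stem).Φ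
  choose! b hb using hb
  have h6 : z' ≤ (sg c r0 p'.stem).r.asg (sg c r0 p'.stem).Φ b := by
    have hz's := hz'.trans hzs
    refine ⟨hz's.1, fun w m v hw hg => ?_⟩
    have hg' : (if m ∈ (sg c r0 p'.stem).Φ ∧ m < w.length then some (min (b m) (co w m))
      else (sg c r0 p'.stem).r.g w m) = some v := hg
    by_cases h : m ∈ (sg c r0 p'.stem).Φ ∧ m < w.length
    · rw [if_pos h] at hg'
      have h7 := z'.mono' Reach.refl hw (hb m h.1)
      have h8 := (z'.bdd w m _ hw h7).2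
      rw [h7, ← hg', min_eq_left h8]
    · rw [if_neg h] at hg'
      exact hz's.2 w m v hw hg'
  obtain ⟨v, hv, h7⟩ := (sg c r0 p'.stem).inv n hp2 b
  have h8 : io z' ∈ meets (c n v) := down_meets _ _ h7 _ (io_le.2 h6)
  have h9 : io z' ∈ meets (c n a) := down_meets _ _ h4 _ ((io_le.2 hz').trans (hz.trans hy4))
  have h10 : io z' ∈ IsFun c :=
    down_IsFun c _ hc _ (io_le.2 (hz'.trans (hzω.trans rω_le)))
  have h11 := IsFun.unique h10 h8 h9
  omega

end Pool.Agent.H458R3.HC
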