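import Pool.Agent.H458R3.HC.Laver

/-!
# Laver forcing adds no half-Cohen real
-/

namespace Pool.Agent.H458R3.HC

open Set Pool.Agent.Helper669.Forcing

/-- removing one element at the stem -/
def Laver.rem (q : Laver) (k : ℕ) : Laver :=
  ⟨q.stem, fun u => q.A u \ {m | u = q.stem ∧ m = k}, fun u => by
    refine (q.inf u).sdiff ((Set.finite_singleton k).subset ?_)
    rintro m ⟨_, rfl⟩
    rfl⟩

theorem Laver.rem_le (q : Laver) (k : ℕ) : q.rem k ≤ q :=
  ⟨Reach.refl, fun _ _ => Set.sdiff_subset⟩

section

variable (D : ℕ → Laver → Laver) (K : Laver → ℕ) (p : Laver)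

/-- The processes at time `w.length`. -/
def St : List Bool → Laver
  | [] => p
  | false :: w => (D w.length (St w)).rem (K (D w.length (St w)))
  | true :: w => (D w.length (St w)).mv (K (D w.length (St w)) :: (D w.length (St w)).stem)

/-- the condition used at time `w.length` -/
def Cd (w : List Bool) : Laver := D w.length (St D K p w)

/-- the new element of the process `w` -/
def kk (w : List Bool) : ℕ := K (Cd D K p w)

/-- the sequence of the process `w` -/
def tt (w : List Bool) : List ℕ := (St D K p w).stem

variable {D K p} (hD1 : ∀ n q, D n q ≤ q) (hD2 : ∀ n q, (D n q).stem = q.stem)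
  (hK : ∀ q : Laver, K q ∈ q.A q.stem)

include hD1 in
theorem Cd_le (w : List Bool) : Cd D K p w ≤ St D K p w := hD1 _ _

include hK in
theorem St_cons_le (b : Bool) (w : List Bool) : St D K p (b :: w) ≤ Cd D K p w := by
  cases b
  · exact Laver.rem_le _ _
  · exact Laver.mv_le (Reach.refl.step (hK _))

include hD1 hK in
theorem St_append_le (l w : List Bool) (hl : l ≠ []) : St D K p (l ++ w) ≤ Cd D K p w := by
  induction l with
  | nil => exact absurd rfl hl
  | cons b l ih =>
    by_cases h : l = []
    · subst h
      exact St_cons_le hK b w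
    · exact (St_cons_le hK b (l ++ w)).trans ((Cd_le hD1 _).trans (ih h))

include hD1 hK in
theorem Cd_le_p (w : List Bool) : Cd D K p w ≤ p := by
  by_cases h : w = []
  · subst h; exact hD1 _ _
  · have h1 := St_append_le (p := p) hD1 hK w [] h
    rw [List.append_nil] at h1
    exact (Cd_le hD1 w).trans (h1.trans (hD1 _ _))

include hD2 in
theorem Cd_stem (w : List Bool) : (Cd D K p w).stem = tt D K p w := hD2 _ _

include hD2 in
theorem tt_false (w : List Bool) : tt D K p (false :: w) = tt D K p w := hD2 _ _

include hD2 in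
theorem tt_true (w : List Bool) : tt D K p (true :: w) = kk D K p w :: tt D K p w := by
  show K (Cd D K p w) :: (Cd D K p w).stem = _
  rw [Cd_stem hD2]
  rfl

include hD2 in
theorem tt_replicate (j : ℕ) (w : List Bool) :
    tt D K p (List.replicate j false ++ w) = tt D K p w := by
  induction j with
  | zero => rfl
  | succ j ih =>
    rw [List.replicate_succ, List.cons_append, tt_false hD2, ih]

include hD2 in
theorem length_tt (w : List Bool) : p.stem.length ≤ (tt D K p w).length := by
  induction w with
  | nil => exact le_rfl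
  | cons b w ih =>
    cases b
    · rw [tt_false hD2]; exact ih
    · rw [tt_true hD2]; exact ih.trans (by simp)

include hD2 in
theorem exists_parent (v : List Bool) (k : ℕ) (u : List ℕ) (hu : p.stem.length ≤ u.length)
    (h : tt D K p v = k :: u) : ∃ w : List Bool, w.length = v.length ∧ tt D K p w = u := by
  induction v with
  | nil =>
    exfalso
    have h1 : p.stem = k :: u := h
    rw [h1] at hu
    simp at hu
  | cons b v ih =>
    cases b
    · rw [tt_false hD2] at h
      obtain ⟨w, h1, h2⟩ := ih h
      exact ⟨false :: w, by simp [h1], by rw [tt_false hD2, h2]⟩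
    · rw [tt_true hD2] at h
      exact ⟨false :: v, rfl, by rw [tt_false hD2]; exact (List.cons.inj h).2⟩

include hK hD2 in
theorem kk_mem (w : List Bool) : kk D K p w ∈ (Cd D K p w).A (tt D K p w) := by
  have h := hK (Cd D K p w)
  rw [Cd_stem hD2] at h
  exact h

include hD1 hD2 in
theorem Cd_A_subset (w : List Bool) :
    (Cd D K p w).A (tt D K p w) ⊆ (St D K p w).A (tt D K p w) := by
  have h := (Cd_le (K := K) (p := p) hD1 w).2 (Cd D K p w).stem Reach.refl
  rw [Cd_stem hD2] at h
  exact h

include hD1 hD2 hK in
theorem unique_aux (n : ℕ) : ∀ w w' : List Bool, w.length = n → w'.length = n →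
    (tt D K p w = tt D K p w' → w = w') ∧
    ∀ k, tt D K p w = k :: tt D K p w' → k ∉ (St D K p w').A (tt D K p w') := by
  induction n with
  | zero =>
    intro w w' hw hw'
    rw [List.length_eq_zero_iff] at hw hw'
    subst hw hw'
    refine ⟨fun _ => rfl, fun k h => ?_⟩
    exact absurd h (by simp)
  | succ n ih =>
    intro w w' hw hw'
    obtain ⟨b, v, rfl⟩ := List.exists_cons_of_length_eq_add_one hw
    obtain ⟨b', v', rfl⟩ := List.exists_cons_of_length_eq_add_one hw'
    have hv : v.length = n := by simpa using hw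
    have hv' : v'.length = n := by simpa using hw'
    have hk : ∀ v : List Bool, kk D K p v ∈ (St D K p v).A (tt D K p v) := fun v =>
      Cd_A_subset hD1 hD2 v (kk_mem hD2 hK v)
    have hno : ∀ v v' : List Bool, v.length = n → v'.length = n →
        tt D K p v ≠ kk D K p v' :: tt D K p v' := by
      intro v v' hv hv' h
      exact (ih v v' hv hv').2 _ h (hk v')
    constructor
    · intro h
      cases b <;> cases b'
      · rw [tt_false hD2, tt_false hD2] at h
        rw [(ih v v' hv hv').1 h]
      · rw [tt_false hD2, tt_true hD2] at h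
        exact absurd h (hno v v' hv hv')
      · rw [tt_false hD2, tt_true hD2] at h
        exact absurd h.symm (hno v' v hv' hv)
      · rw [tt_true hD2, tt_true hD2] at h
        rw [(ih v v' hv hv').1 (List.cons.inj h).2]
    · intro k h
      cases b <;> cases b'
      · rw [tt_false hD2, tt_false hD2] at h
        rw [tt_false hD2]
        intro hkm
        refine (ih v v' hv hv').2 k h (Cd_A_subset hD1 hD2 v' ?_)
        exact hkm.1
      · rw [tt_false hD2] at h
        exfalso
        obtain ⟨w'', h1, h2⟩ := exists_parent hD2 v k _ (length_tt hD2 _) h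
        rw [tt_true hD2] at h2
        exact hno w'' v' (h1.trans hv) hv' h2
      · rw [tt_true hD2, tt_false hD2] at h
        have h1 := (List.cons.inj h)
        have h2 := (ih v v' hv hv').1 h1.2
        subst h2
        rw [tt_false hD2]
        rintro ⟨_, h3⟩
        refine h3 ⟨?_, h1.1.symm⟩
        exact (Cd_stem hD2 v).symm
      · rw [tt_true hD2] at h
        have h1 := (List.cons.inj h)
        rw [tt_true hD2] at h1
        exact absurd h1.2 (hno v v' hv hv')

include hD1 hD2 hK in
theorem tt_inj {w w' : List Bool} (hl : w.length = w'.length) (h : tt D K p w = tt D K p w') :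
    w = w' := (unique_aux hD1 hD2 hK _ w w' hl rfl).1 h

include hD1 hD2 hK in
theorem tt_cmp {v v' : List Bool} (hl : v.length ≤ v'.length) (h : tt D K p v = tt D K p v') :
    v' = List.replicate (v'.length - v.length) false ++ v := by
  refine (tt_inj (p := p) hD1 hD2 hK ?_ ?_).symm
  · simp; omega
  · rw [tt_replicate hD2, h]

include hD1 hD2 hK in
theorem tt_code {v v' : List Bool} (h : tt D K p v' = tt D K p (true :: v)) :
    ∃ j, v' = List.replicate j false ++ true :: v := by
  rcases le_total (true :: v).length v'.length with h1 | h1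
  · exact ⟨_, tt_cmp hD1 hD2 hK h1 h.symm⟩
  · have h2 := tt_cmp hD1 hD2 hK h1 h
    refine ⟨0, ?_⟩
    rcases Nat.eq_zero_or_pos ((true :: v).length - v'.length) with h3 | h3
    · rw [h3] at h2
      exact h2.symm
    · obtain ⟨m, hm⟩ := Nat.exists_eq_succ_of_ne_zero h3.ne'
      rw [hm, List.replicate_succ, List.cons_append] at h2
      exact absurd (List.cons.inj h2).1 (by simp)

end

/-- Laver forcing: every name of a function can be avoided by a ground model function. -/
theorem laver_avoid (c : ℕ → ℕ → Set Laver) (p : Laver) (hp : p ∈ IsFun c) :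
    ∃ q ≤ p, ∃ h : ℕ → ℕ, ∀ n, q ∈ fnot (meets (c n (h n))) := by
  classical
  choose D hD1 hD2 hD3 using fun (n : ℕ) (q : Laver) => pure_decision_fin (c n) (2 ^ n + 1) q
  choose K hK using fun q : Laver => (q.inf q.stem).nonempty
  -- the values of `h`
  have hh : ∀ n, ∃ v, ∀ w : List Bool, w.length = n → Cd D K p w ∈ fnot (meets (c n v)) := by
    intro n
    by_contra hcon
    push Not at hcon
    choose w hw1 hw2 using hcon
    have h1 : ∀ v < 2 ^ n + 1, Cd D K p (w v) ∈ meets (c n v) := by
      intro v hv
      have h2 := hD3 (w v).length (St D K p (w v)) v (by rw [hw1]; exact hv)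
      rw [hw1] at h2
      have e : D n (St D K p (w v)) = Cd D K p (w v) := by
        unfold Cd; rw [hw1]
      rw [e] at h2
      rcases h2 with h3 | h3
      · exact h3
      · exact absurd h3 (hw2 v)
    have hcard : Fintype.card (List.Vector Bool n) < Fintype.card (Fin (2 ^ n + 1)) := by
      rw [card_vector, Fintype.card_bool, Fintype.card_fin]
      exact Nat.lt_succ_self _
    let F : Fin (2 ^ n + 1) → List.Vector Bool n := fun v => ⟨w v, hw1 v⟩
    obtain ⟨v, v', hne, heq⟩ := Fintype.exists_ne_map_eq_of_card_lt F hcard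
    have heq' : w v = w v' := congrArg Subtype.val heq
    apply hne
    apply Fin.ext
    have h2 := h1 v' v'.2
    rw [← heq'] at h2
    exact IsFun.unique (down_IsFun c p hp _ (Cd_le_p hD1 hK (w v))) (h1 v v.2) h2
  choose h hh using hh
  let B : List ℕ → Set ℕ := fun u => if ∃ w, tt D K p w = u then
    {k | ∃ w, tt D K p w = u ∧ k = kk D K p w} else p.A u
  have hBt : ∀ w, B (tt D K p w) = {k | ∃ w', tt D K p w' = tt D K p w ∧ k = kk D K p w'} := by
    intro w
    have : ∃ w', tt D K p w' = tt D K p w := ⟨w, rfl⟩
    simp only [B, this, if_true]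
  have hB : ∀ u, (B u).Infinite := by
    intro u
    by_cases hu : ∃ w, tt D K p w = u
    · obtain ⟨w, rfl⟩ := hu
      rw [hBt]
      refine Set.infinite_of_injective_forall_mem
        (f := fun j : ℕ => kk D K p (List.replicate j false ++ w)) ?_
        (fun j => ⟨_, tt_replicate hD2 j w, rfl⟩)
      have key : ∀ i j : ℕ, i < j → kk D K p (List.replicate j false ++ w) ≠
          kk D K p (List.replicate i false ++ w) := by
        intro i j hij heq
        obtain ⟨m, rfl⟩ : ∃ m, j = m + (i + 1) := ⟨j - (i + 1), by omega⟩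
        have h1 : St D K p (List.replicate (m + (i + 1)) false ++ w) ≤
            St D K p (List.replicate (i + 1) false ++ w) := by
          rcases Nat.eq_zero_or_pos m with h2 | h2
          · subst h2
            rw [Nat.zero_add]
          · rw [List.replicate_add, List.append_assoc]
            refine (St_append_le hD1 hK _ _ ?_).trans (Cd_le hD1 _)
            simp [h2.ne']
        have h2 := kk_mem (p := p) hD2 hK (List.replicate (m + (i + 1)) false ++ w)
        have h3 := Cd_A_subset hD1 hD2 _ h2
        have h4 := h1.2 _ Reach.refl h3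
        rw [List.replicate_succ, List.cons_append] at h4
        apply h4.2
        refine ⟨?_, heq⟩
        show tt D K p (List.replicate (m + (i + 1)) false ++ w) =
          (Cd D K p (List.replicate i false ++ w)).stem
        rw [Cd_stem hD2, tt_replicate hD2, tt_replicate hD2]
      intro i j hij
      rcases lt_trichotomy i j with h1 | h1 | h1
      · exact absurd hij.symm (key i j h1)
      · exact h1
      · exact absurd hij (key j i h1)
    · simp only [B, hu, if_false]; exact p.inf u
  have hr : ∀ u, Reach B p.stem u → ∃ w, tt D K p w = u := by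
    intro u hu
    induction hu with
    | refl => exact ⟨[], rfl⟩
    | step hu hk ih =>
      obtain ⟨w, rfl⟩ := ih
      rw [hBt] at hk
      obtain ⟨w', h1, rfl⟩ := hk
      exact ⟨true :: w', by rw [tt_true hD2, h1]⟩
  have hBp : (⟨p.stem, B, hB⟩ : Laver) ≤ p := by
    refine ⟨Reach.refl, fun u hu => ?_⟩
    obtain ⟨w, rfl⟩ := hr u hu
    show B (tt D K p w) ⊆ _
    rw [hBt]
    rintro k ⟨w', h1, rfl⟩
    have h2 := (Cd_le_p (p := p) hD1 hK w').2 (Cd D K p w').stem Reach.refl
    rw [Cd_stem hD2] at h2
    rw [← h1]
    exact h2 (kk_mem hD2 hK w')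
  refine ⟨⟨p.stem, B, hB⟩, hBp, h, fun n q hq hqm => ?_⟩
  have hfin : {k | ∃ v : List Bool, v.length < n ∧ k = kk D K p v}.Finite := by
    refine ((List.finite_length_lt Bool n).image (kk D K p)).subset ?_
    rintro k ⟨v, hv, rfl⟩
    exact ⟨v, hv, rfl⟩
  obtain ⟨k, hk, hkn⟩ := ((q.inf q.stem).sdiff hfin).nonempty
  obtain ⟨w0, hw0⟩ := hr q.stem hq.1
  have hkB : k ∈ B q.stem := hq.2 q.stem Reach.refl hk
  rw [← hw0, hBt] at hkB
  obtain ⟨v, hv, rfl⟩ := hkB
  have hvn : n ≤ v.length := by
    by_contra hlt
    exact hkn ⟨v, not_le.1 hlt, rfl⟩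
  let q1 := q.mv (kk D K p v :: q.stem)
  have hq1 : q1 ≤ q := Laver.mv_le (Reach.refl.step hk)
  -- the process at time `n`
  obtain ⟨l, w, hlw, hwn⟩ : ∃ l w, v = l ++ w ∧ w.length = n :=
    ⟨v.take (v.length - n), v.drop (v.length - n), (List.take_append_drop _ _).symm, by
      rw [List.length_drop]; omega⟩
  have hstem : kk D K p v :: q.stem = tt D K p (true :: v) := by
    rw [tt_true hD2, hv, hw0]
  have hcodes : ∀ u, Reach B (kk D K p v :: q.stem) u → (∃ v', tt D K p v' = u) ∧
      ∀ v', tt D K p v' = u → ∃ l', l' ≠ [] ∧ v' = l' ++ w := by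
    intro u hu
    induction hu with
    | refl =>
      refine ⟨⟨_, hstem.symm⟩, fun v' hv' => ?_⟩
      rw [hstem] at hv'
      obtain ⟨j, rfl⟩ := tt_code hD1 hD2 hK hv'
      refine ⟨List.replicate j false ++ true :: l, by simp, ?_⟩
      rw [hlw]; simp
    | step hu hk ih =>
      obtain ⟨⟨v1, rfl⟩, ih⟩ := ih
      rw [hBt] at hk
      obtain ⟨v2, h2, rfl⟩ := hk
      refine ⟨⟨true :: v2, by rw [tt_true hD2, h2]⟩, fun v' hv' => ?_⟩
      rw [← h2, ← tt_true hD2] at hv'
      obtain ⟨j, rfl⟩ := tt_code hD1 hD2 hK hv'
      obtain ⟨l', _, h3⟩ := ih v2 h2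
      refine ⟨List.replicate j false ++ true :: l', by simp, ?_⟩
      rw [h3]; simp
  have hq1C : q1 ≤ Cd D K p w := by
    constructor
    · show Reach _ _ (kk D K p v :: q.stem)
      rw [hstem]
      have h1 : St D K p (true :: v) ≤ Cd D K p w := by
        rw [hlw]
        exact St_append_le hD1 hK (true :: l) w (by simp)
      exact h1.1
    · intro u hu
      have hu' : Reach B (kk D K p v :: q.stem) u :=
        Reach.mono hu fun y hy => (hq1.trans hq).2 y hy
      obtain ⟨⟨v', rfl⟩, hc⟩ := hcodes u hu'
      refine ((hq1.trans hq).2 _ hu).trans ?_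
      show B (tt D K p v') ⊆ _
      rw [hBt]
      rintro k' ⟨v2, h2, rfl⟩
      obtain ⟨l', hl', h3⟩ := hc v2 h2
      have h4 : Cd D K p v2 ≤ Cd D K p w := by
        refine (Cd_le hD1 v2).trans ?_
        rw [h3]
        exact St_append_le hD1 hK l' w hl'
      have h5 := h4.2 (Cd D K p v2).stem Reach.refl
      rw [Cd_stem hD2] at h5
      rw [← h2]
      exact h5 (kk_mem hD2 hK v2)
  exact hh n w hwn q1 hq1C (down_meets _ _ hqm _ hq1)

end Pool.Agent.H458R3.HC
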