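import Mathlib
import Pool.Agent.Helper669.Forcing

/-!
# Laver forcing: pure decision
-/

namespace Pool.Agent.H458R3.HC

open Set Pool.Agent.Helper669.Forcing

/-- Sequences are written backwards. `Reach A s u`: the sequence `u` arises from `s` by adding
elements of the sets given by `A`. -/
inductive Reach (A : List ℕ → Set ℕ) (s : List ℕ) : List ℕ → Prop
  | refl : Reach A s s
  | step {u : List ℕ} {k : ℕ} : Reach A s u → k ∈ A u → Reach A s (k :: u)

theorem Reach.trans {A : List ℕ → Set ℕ} {s t u : List ℕ} (h : Reach A s t) (h' : Reach A t u) :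
    Reach A s u := by
  induction h' with
  | refl => exact h
  | step _ hk ih => exact ih.step hk

/-- it suffices to compare the sets on the sequences that can be reached -/
theorem Reach.mono {A B : List ℕ → Set ℕ} {s u : List ℕ} (h : Reach A s u)
    (hAB : ∀ v, Reach A s v → A v ⊆ B v) : Reach B s u := by
  induction h with
  | refl => exact Reach.refl
  | step h hk ih => exact ih.step (hAB _ h hk)

theorem Reach.length_le {A : List ℕ → Set ℕ} {s u : List ℕ} (h : Reach A s u) :
    s.length ≤ u.length := by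
  induction h with
  | refl => exact le_rfl
  | step _ _ ih => exact ih.trans (by simp)

theorem Reach.eq_of_length {A : List ℕ → Set ℕ} {s u : List ℕ} (h : Reach A s u)
    (hl : u.length ≤ s.length) : u = s := by
  cases h with
  | refl => rfl
  | step h _ => exact absurd (h.length_le.trans_lt (by simp)) (not_lt.2 hl)

/-- the entry of `u` with index `i` -/
def co (u : List ℕ) (i : ℕ) : ℕ := u.reverse.getD i 0

theorem co_cons_self (k : ℕ) (u : List ℕ) : co (k :: u) u.length = k := by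
  simp [co]

theorem co_cons {k : ℕ} {u : List ℕ} {i : ℕ} (h : i < u.length) : co (k :: u) i = co u i := by
  simp only [co, List.reverse_cons]
  rw [List.getD_append]
  simpa using h

theorem Reach.co_eq {A : List ℕ → Set ℕ} {s u : List ℕ} (h : Reach A s u) {i : ℕ}
    (hi : i < s.length) : co u i = co s i := by
  induction h with
  | refl => rfl
  | step h _ ih => rw [co_cons (hi.trans_le h.length_le), ih]

/-- Laver forcing. The tree of a condition consists of the sequences that can be reached. -/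
structure Laver where
  /-- the stem -/
  stem : List ℕ
  /-- the possible continuations -/
  A : List ℕ → Set ℕ
  /-- they form infinite sets -/
  inf : ∀ u, (A u).Infinite

instance : Inhabited Laver := ⟨⟨[], fun _ => Set.univ, fun _ => Set.infinite_univ⟩⟩

instance : Preorder Laver where
  le p' p := Reach p.A p.stem p'.stem ∧ ∀ u, Reach p'.A p'.stem u → p'.A u ⊆ p.A u
  le_refl p := ⟨Reach.refl, fun _ _ => Subset.rfl⟩
  le_trans a b c hab hbc := ⟨hbc.1.trans (hab.1.mono fun v hv => hbc.2 v hv), fun u hu =>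
    (hab.2 u hu).trans (hbc.2 u (hab.1.trans (hu.mono hab.2)))⟩

theorem Laver.le_def {p q : Laver} : p ≤ q ↔ Reach q.A q.stem p.stem ∧
    ∀ u, Reach p.A p.stem u → p.A u ⊆ q.A u := Iff.rfl

theorem Laver.reach_of_le {p q : Laver} (h : p ≤ q) {u : List ℕ} (hu : Reach p.A p.stem u) :
    Reach q.A q.stem u := h.1.trans (hu.mono h.2)

/-- moving to a longer stem -/
def Laver.mv (p : Laver) (u : List ℕ) : Laver := ⟨u, p.A, p.inf⟩

theorem Laver.mv_le {p : Laver} {u : List ℕ} (h : Reach p.A p.stem u) : p.mv u ≤ p :=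
  ⟨h, fun _ _ => Subset.rfl⟩

/-- A set of conditions which is determined by dense subsets. -/
structure Reg (φ : Set Laver) : Prop where
  down : Down φ
  dense : ∀ p, (∀ q ≤ p, ∃ r ≤ q, r ∈ φ) → p ∈ φ

theorem reg_meets (N : Set Laver) : Reg (meets N) := by
  refine ⟨down_meets N, fun p h q hq => ?_⟩
  obtain ⟨r, hr, h'⟩ := h q hq
  obtain ⟨r', hr', s, hs, hle⟩ := h' r le_rfl
  exact ⟨r', hr'.trans hr, s, hs, hle⟩

theorem reg_fnot {φ : Set Laver} (hφ : Down φ) : Reg (fnot φ) := by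
  refine ⟨down_fnot φ, fun p h q hq hqφ => ?_⟩
  obtain ⟨r, hr, h'⟩ := h q hq
  exact h' r le_rfl (hφ q hqφ r hr)

/-- gluing conditions with stems `k :: s` -/
theorem glue {φ : Set Laver} (hφ : Reg φ) (s : List ℕ) (A : List ℕ → Set ℕ)
    (hA : ∀ u, (A u).Infinite) (K : Set ℕ) (hK : K.Infinite) (hKA : K ⊆ A s)
    (h : ∀ k ∈ K, ∃ q : Laver, q ≤ ⟨k :: s, A, hA⟩ ∧ q.stem = k :: s ∧ q ∈ φ) :
    ∃ q : Laver, q ≤ ⟨s, A, hA⟩ ∧ q.stem = s ∧ q ∈ φ := by
  classical
  choose! Q hQ1 hQ2 hQ3 using h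
  let B : List ℕ → Set ℕ := fun u => if u = s then K else
    if co u s.length ∈ K then (Q (co u s.length)).A u else A u
  have hB : ∀ u, (B u).Infinite := by
    intro u
    by_cases h1 : u = s
    · simp only [B, h1, if_true]; exact hK
    · by_cases h2 : co u s.length ∈ K
      · simp only [B, h1, if_false, h2, if_true]; exact (Q _).inf u
      · simp only [B, h1, if_false, h2]; exact hA u
  have hBk : ∀ k ∈ K, ∀ u, s.length < u.length → co u s.length = k → B u = (Q k).A u := by
    intro k hk u hu hco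
    have h1 : u ≠ s := by rintro rfl; exact lt_irrefl _ hu
    simp only [B, h1, if_false, hco, hk, if_true]
  have hkr : ∀ k u, Reach B (k :: s) u → s.length < u.length ∧ co u s.length = k := by
    intro k u hu
    refine ⟨lt_of_lt_of_le (by simp) hu.length_le, ?_⟩
    rw [hu.co_eq (by simp), co_cons_self]
  have hlek : ∀ k ∈ K, ∀ q : Laver, q ≤ (⟨s, B, hB⟩ : Laver).mv (k :: s) → q ≤ Q k := by
    intro k hk q hq
    have h1 : ∀ u, Reach B (k :: s) u → B u ⊆ (Q k).A u := fun u hu =>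
      (hBk k hk u (hkr k u hu).1 (hkr k u hu).2).le
    refine hq.trans ⟨?_, fun u hu => h1 u hu⟩
    rw [hQ2 k hk]
    exact Reach.refl
  have hsplit : ∀ u, Reach B s u → u = s ∨ ∃ k ∈ K, Reach B (k :: s) u := by
    intro u hu
    induction hu with
    | refl => exact Or.inl rfl
    | step hu hk ih =>
      rcases ih with rfl | ⟨k', hk', h'⟩
      · refine Or.inr ⟨_, ?_, Reach.refl⟩
        simpa [B] using hk
      · exact Or.inr ⟨k', hk', h'.step hk⟩
  refine ⟨⟨s, B, hB⟩, ⟨Reach.refl, fun u hu => ?_⟩, rfl, hφ.dense _ fun q hq => ?_⟩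
  · show B u ⊆ A u
    rcases hsplit u hu with rfl | ⟨k, hk, h'⟩
    · simp only [B, if_true]; exact hKA
    · have h2 := hkr k u h'
      rw [hBk k hk u h2.1 h2.2]
      refine (hQ1 k hk).2 u ?_
      rw [hQ2 k hk]
      exact h'.mono fun v hv => (hBk k hk v (hkr k v hv).1 (hkr k v hv).2).le
  · -- extend the stem
    rcases hsplit q.stem hq.1 with h1 | ⟨k, hk, h'⟩
    · obtain ⟨k, hk⟩ := (q.inf q.stem).nonempty
      have h2 : q.mv (k :: q.stem) ≤ q := Laver.mv_le (Reach.refl.step hk)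
      have h3 : k ∈ K := by
        have := hq.2 q.stem Reach.refl hk
        rw [h1] at this
        simpa [B] using this
      refine ⟨q.mv (k :: q.stem), h2, hφ.down _ (hQ3 k h3) _ (hlek k h3 _ ?_)⟩
      refine ⟨?_, (h2.trans hq).2⟩
      show Reach B (k :: s) (k :: q.stem)
      rw [h1]
      exact Reach.refl
    · exact ⟨q, le_rfl, hφ.down _ (hQ3 k hk) _ (hlek k hk q ⟨h', hq.2⟩)⟩

/-- Pure decision: without changing the stem one can pass to a condition in `φ` or in `ψ` if
`φ ∪ ψ` is dense. -/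
theorem pure_decision {φ ψ : Set Laver} (hφ : Reg φ) (hψ : Reg ψ)
    (hd : ∀ p, ∃ q ≤ p, q ∈ φ ∨ q ∈ ψ) (p : Laver) :
    ∃ q ≤ p, q.stem = p.stem ∧ (q ∈ φ ∨ q ∈ ψ) := by
  classical
  let good : List ℕ → Prop := fun u => ∃ q : Laver, q ≤ ⟨u, p.A, p.inf⟩ ∧ q.stem = u ∧
    (q ∈ φ ∨ q ∈ ψ)
  by_contra hcon
  have hbad : ¬ good p.stem := by
    rintro ⟨q, h1, h2, h3⟩
    exact hcon ⟨q, h1, h2, h3⟩
  have hfin : ∀ u, ¬ good u → {k | k ∈ p.A u ∧ good (k :: u)}.Finite := by
    intro u hu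
    by_contra hinf
    have h1 : {k | k ∈ p.A u ∧ good (k :: u)} ⊆
        {k | k ∈ p.A u ∧ ∃ q : Laver, q ≤ ⟨k :: u, p.A, p.inf⟩ ∧ q.stem = k :: u ∧ q ∈ φ} ∪
        {k | k ∈ p.A u ∧ ∃ q : Laver, q ≤ ⟨k :: u, p.A, p.inf⟩ ∧ q.stem = k :: u ∧ q ∈ ψ} := by
      rintro k ⟨hk, q, h1, h2, h3 | h3⟩
      · exact Or.inl ⟨hk, q, h1, h2, h3⟩
      · exact Or.inr ⟨hk, q, h1, h2, h3⟩
    rcases Set.infinite_union.1 (Set.Infinite.mono h1 hinf) with h2 | h2
    · obtain ⟨q, hq1, hq2, hq3⟩ := glue hφ u p.A p.inf _ h2 (fun k hk => hk.1) (fun k hk => hk.2)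
      exact hu ⟨q, hq1, hq2, Or.inl hq3⟩
    · obtain ⟨q, hq1, hq2, hq3⟩ := glue hψ u p.A p.inf _ h2 (fun k hk => hk.1) (fun k hk => hk.2)
      exact hu ⟨q, hq1, hq2, Or.inr hq3⟩
  let B : List ℕ → Set ℕ := fun u => if good u then p.A u else
    p.A u \ {k | k ∈ p.A u ∧ good (k :: u)}
  have hB : ∀ u, (B u).Infinite := by
    intro u
    by_cases h : good u
    · simp only [B, h, if_true]; exact p.inf u
    · simp only [B, h, if_false]; exact (p.inf u).sdiff (hfin u h)
  have hBr : ∀ u, Reach B p.stem u → ¬ good u := by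
    intro u hu
    induction hu with
    | refl => exact hbad
    | step hu hk ih =>
      intro hg
      simp only [B, ih, if_false] at hk
      exact hk.2 ⟨hk.1, hg⟩
  have hBA : ∀ u, B u ⊆ p.A u := by
    intro u
    by_cases h : good u
    · simp only [B, h, if_true]; exact Subset.rfl
    · simp only [B, h, if_false]; exact Set.sdiff_subset
  obtain ⟨q, hq, hq'⟩ := hd ⟨p.stem, B, hB⟩
  refine hBr q.stem hq.1 ⟨q, ⟨Reach.refl, fun u hu => ?_⟩, rfl, hq'⟩
  exact (hq.2 u hu).trans (hBA u)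

/-- deciding finitely many statements -/
theorem pure_decision_fin (N : ℕ → Set Laver) (m : ℕ) (p : Laver) :
    ∃ q ≤ p, q.stem = p.stem ∧ ∀ v < m, q ∈ meets (N v) ∨ q ∈ fnot (meets (N v)) := by
  induction m with
  | zero => exact ⟨p, le_rfl, rfl, fun v hv => absurd hv (Nat.not_lt_zero v)⟩
  | succ m ih =>
    obtain ⟨q, hq, hs, hv⟩ := ih
    obtain ⟨r, hr, hs', hv'⟩ := pure_decision (reg_meets (N m)) (reg_fnot (down_meets (N m)))
      (fun p => by
        by_cases h : p ∈ fnot (meets (N m))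
        · exact ⟨p, le_rfl, Or.inr h⟩
        · simp only [fnot, Set.mem_ofPred_eq, not_forall, not_not] at h
          obtain ⟨q, hq, h'⟩ := h
          exact ⟨q, hq, Or.inl h'⟩) q
    refine ⟨r, hr.trans hq, hs'.trans hs, fun v hv1 => ?_⟩
    rcases Nat.lt_succ_iff_lt_or_eq.1 hv1 with h | rfl
    · rcases hv v h with h1 | h1
      · exact Or.inl (down_meets _ _ h1 _ hr)
      · exact Or.inr (down_fnot _ _ h1 _ hr)
    · exact hv'

end Pool.Agent.H458R3.HC
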