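import Pool.Agent.H458R3.HC.RR

/-!
# The second forcing notion adds no half-Cohen real over the intermediate extension
-/

namespace Pool.Agent.H458R3.HC

open Set Pool.Agent.Helper669.Forcing

section

variable {c : ℕ → ℕ → Set (Iter Laver QQ)} {r0 : RR}

/-- The stages of the construction: a condition, a finite set of free coordinates, the number of the
values of the name `c` which are decided by the values of these coordinates, and bounds for these
values. -/
structure Stg (c : ℕ → ℕ → Set (Iter Laver QQ)) (r0 : RR) where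
  r : RR
  Φ : Finset ℕ
  k : ℕ
  M : ℕ → ℕ
  le : r ≤ r0
  card : Φ.card = k
  lt : ∀ n ∈ Φ, n < r.stem.length
  free : r.Free Φ
  inv : ∀ j < k, ∀ a : ℕ → ℕ, ∃ v ≤ M j, io (r.asg Φ a) ∈ meets (c j v)

instance : Preorder (Stg c r0) where
  le s' s := s'.r ≤ s.r ∧ s.Φ ⊆ s'.Φ ∧ s.k ≤ s'.k ∧ (∀ j < s.k, s'.M j = s.M j) ∧
    (s'.k = s.k → s'.r.g = s.r.g ∧ s'.r.A = s.r.A)
  le_refl s := ⟨le_rfl, Finset.Subset.refl _, le_rfl, fun _ _ => rfl, fun _ => ⟨rfl, rfl⟩⟩
  le_trans a b c h h' := ⟨h.1.trans h'.1, h'.2.1.trans h.2.1, h'.2.2.1.trans h.2.2.1,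
    fun j hj => (h.2.2.2.1 j (hj.trans_le h'.2.2.1)).trans (h'.2.2.2.1 j hj), fun hk => by
      have h1 : a.k = b.k := by
        have := h.2.2.1
        have := h'.2.2.1
        omega
      have h2 : b.k = c.k := by omega
      exact ⟨(h.2.2.2.2 h1).1.trans (h'.2.2.2.2 h2).1, (h.2.2.2.2 h1).2.trans (h'.2.2.2.2 h2).2⟩⟩

theorem Stg.le_def {s' s : Stg c r0} : s' ≤ s ↔ s'.r ≤ s.r ∧ s.Φ ⊆ s'.Φ ∧ s.k ≤ s'.k ∧
    (∀ j < s.k, s'.M j = s.M j) ∧ (s'.k = s.k → s'.r.g = s.r.g ∧ s'.r.A = s.r.A) := Iff.rfl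

/-- the first stage -/
def Stg.init (c : ℕ → ℕ → Set (Iter Laver QQ)) (r0 : RR) : Stg c r0 where
  r := r0
  Φ := ∅
  k := 0
  M := fun _ => 0
  le := le_rfl
  card := rfl
  lt n hn := absurd hn (Finset.notMem_empty n)
  free _ _ n hn := absurd hn (Finset.notMem_empty n)
  inv j hj := absurd hj (Nat.not_lt_zero j)

open Classical in
/-- deciding more values if this is possible without changing the stem -/
noncomputable def Stg.grow (s : Stg c r0) : Stg c r0 :=
  if h : ∃ s' ≤ s, s'.r.stem = s.r.stem ∧ s.k < s'.k then h.choose else s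

theorem Stg.grow_le (s : Stg c r0) : s.grow ≤ s := by
  unfold Stg.grow
  split_ifs with h
  · exact h.choose_spec.1
  · exact le_rfl

theorem Stg.grow_stem (s : Stg c r0) : s.grow.r.stem = s.r.stem := by
  unfold Stg.grow
  split_ifs with h
  · exact h.choose_spec.2.1
  · rfl

theorem Stg.grow_lt {s s' : Stg c r0} (h : s' ≤ s) (h1 : s'.r.stem = s.r.stem) (h2 : s.k < s'.k) :
    s.k < s.grow.k := by
  have h3 : ∃ s' ≤ s, s'.r.stem = s.r.stem ∧ s.k < s'.k := ⟨s', h, h1, h2⟩
  unfold Stg.grow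
  rw [dif_pos h3]
  exact h3.choose_spec.2.2

theorem RR.asg_le_asg {r' r : RR} (h : r' ≤ r) {Φ Φ' : Finset ℕ} (hΦ : Φ ⊆ Φ')
    (hf : r'.Free Φ') (a : ℕ → ℕ) : r'.asg Φ' a ≤ r.asg Φ a := by
  refine ⟨h.1, fun u n v hu hg => ?_⟩
  have hg' : (if n ∈ Φ ∧ n < u.length then some (min (a n) (co u n)) else r.g u n) = some v := hg
  show (if n ∈ Φ' ∧ n < u.length then some (min (a n) (co u n)) else r'.g u n) = some v
  by_cases h1 : n ∈ Φ ∧ n < u.length
  · rw [if_pos h1] at hg'
    rw [if_pos ⟨hΦ h1.1, h1.2⟩]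
    exact hg'
  · rw [if_neg h1] at hg'
    have h2 : r'.g u n = some v := h.2 u n v hu hg'
    have h3 : n ∉ Φ' := by
      intro hn
      rw [hf u hu n hn] at h2
      cases h2
    rw [if_neg (fun hh => h3 hh.1)]
    exact h2

/-- a stage above a longer stem -/
def Stg.mvp (s : Stg c r0) (u : List ℕ) (h : Reach s.r.A s.r.stem u) : Stg c r0 where
  r := s.r.mv u h
  Φ := s.Φ
  k := s.k
  M := s.M
  le := (s.r.mv_le u h).trans s.le
  card := s.card
  lt n hn := (s.lt n hn).trans_le h.length_le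
  free w hw n hn := s.free w (h.trans hw) n hn
  inv j hj a := by
    obtain ⟨v, hv, h1⟩ := s.inv j hj a
    refine ⟨v, hv, down_meets _ _ h1 _ (io_le.2 ?_)⟩
    exact RR.asg_mono (s.r.mv_le u h) _ _

open Classical in
/-- a stage above a longer stem -/
noncomputable def Stg.mv (s : Stg c r0) (u : List ℕ) : Stg c r0 :=
  if h : Reach s.r.A s.r.stem u then s.mvp u h else s

theorem Stg.mv_eq {s : Stg c r0} {u : List ℕ} (h : Reach s.r.A s.r.stem u) :
    s.mv u = s.mvp u h := by
  unfold Stg.mv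
  rw [dif_pos h]

theorem Stg.mv_le {s : Stg c r0} {u : List ℕ} (h : Reach s.r.A s.r.stem u) : s.mv u ≤ s := by
  rw [Stg.mv_eq h]
  exact ⟨s.r.mv_le u h, Finset.Subset.refl _, le_rfl, fun _ _ => rfl, fun _ => ⟨rfl, rfl⟩⟩

theorem Stg.mv_stem {s : Stg c r0} {u : List ℕ} (h : Reach s.r.A s.r.stem u) :
    (s.mv u).r.stem = u := by
  rw [Stg.mv_eq h]
  rfl

open Classical in
/-- the stage which belongs to a node -/
noncomputable def sg (c : ℕ → ℕ → Set (Iter Laver QQ)) (r0 : RR) : List ℕ → Stg c r0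
  | [] => (Stg.init c r0).grow
  | k :: u => if k :: u = r0.stem then (Stg.init c r0).grow else ((sg c r0 u).mv (k :: u)).grow

theorem sg_stem0 {u : List ℕ} (hu : u = r0.stem) : sg c r0 u = (Stg.init c r0).grow := by
  cases u with
  | nil => rfl
  | cons k u =>
    show (if k :: u = r0.stem then (Stg.init c r0).grow else ((sg c r0 u).mv (k :: u)).grow) = _
    rw [if_pos hu]

/-- the possible continuations for the condition that is constructed -/
noncomputable def Aω (c : ℕ → ℕ → Set (Iter Laver QQ)) (r0 : RR) : List ℕ → Set ℕ :=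
  fun u => (sg c r0 u).r.A u

theorem sg_cons {u : List ℕ} {k : ℕ} (hu : Reach (Aω c r0) r0.stem u) :
    sg c r0 (k :: u) = ((sg c r0 u).mv (k :: u)).grow := by
  show (if k :: u = r0.stem then (Stg.init c r0).grow else ((sg c r0 u).mv (k :: u)).grow) = _
  rw [if_neg]
  intro h
  have h1 := hu.length_le
  have h2 : (k :: u).length = u.length + 1 := rfl
  rw [h] at h2
  omega

theorem sg_stem {u : List ℕ} (hu : Reach (Aω c r0) r0.stem u) : (sg c r0 u).r.stem = u := by
  induction hu with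
  | refl => rw [sg_stem0 rfl, Stg.grow_stem]; rfl
  | @step u k hu hk ih =>
    rw [sg_cons hu, Stg.grow_stem, Stg.mv_stem]
    rw [ih]
    exact Reach.refl.step hk

theorem sg_reach_cons {u : List ℕ} {k : ℕ} (hu : Reach (Aω c r0) r0.stem u) (hk : k ∈ Aω c r0 u) :
    Reach (sg c r0 u).r.A (sg c r0 u).r.stem (k :: u) := by
  rw [sg_stem hu]
  exact Reach.refl.step hk

theorem sg_le {u w : List ℕ} (hu : Reach (Aω c r0) r0.stem u) (hw : Reach (Aω c r0) u w) :
    sg c r0 w ≤ sg c r0 u := by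
  induction hw with
  | refl => exact le_rfl
  | @step w k hw hk ih =>
    refine le_trans ?_ ih
    rw [sg_cons (hu.trans hw)]
    exact (Stg.grow_le _).trans (Stg.mv_le (sg_reach_cons (hu.trans hw) hk))

/-- the part of the tree of the condition that is constructed is contained in the stages -/
theorem Aω_subset {u w : List ℕ} (hu : Reach (Aω c r0) r0.stem u) (hw : Reach (Aω c r0) u w) :
    Aω c r0 w ⊆ (sg c r0 u).r.A w := by
  have h := (sg_le hu hw).1
  have h1 := RR.A_subset h (u := w) (by rw [sg_stem (hu.trans hw)]; exact Reach.refl)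
  exact h1

theorem gω_of {u w : List ℕ} (hu : Reach (Aω c r0) r0.stem u) (hw : Reach (Aω c r0) u w)
    {n v : ℕ} (h : (sg c r0 u).r.g w n = some v) : (sg c r0 w).r.g w n = some v :=
  (sg_le hu hw).1.2 w n v (by rw [sg_stem (hu.trans hw)]; exact Reach.refl) h

theorem gω_mono {u w : List ℕ} (hu : Reach (Aω c r0) r0.stem u) (hw : Reach (Aω c r0) u w)
    {n v : ℕ} (h : (sg c r0 u).r.g u n = some v) : (sg c r0 w).r.g w n = some v := by
  refine gω_of hu hw ((sg c r0 u).r.mono' (u := u) ?_ ?_ h)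
  · rw [sg_stem hu]; exact Reach.refl
  · exact hw.mono fun v hv => Aω_subset hu hv

theorem path_reach {A : List ℕ → Set ℕ} {β : ℕ → List ℕ} (hβ : ∀ i, Reach A (β i) (β (i + 1)))
    (i j : ℕ) : Reach A (β i) (β (i + j)) := by
  induction j with
  | zero => exact Reach.refl
  | succ j ih => exact ih.trans (hβ (i + j))

/-- the condition that is constructed -/
noncomputable def rω (c : ℕ → ℕ → Set (Iter Laver QQ)) (r0 : RR) : RR where
  stem := r0.stem
  A := Aω c r0
  inf u := (sg c r0 u).r.inf u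
  g u n := (sg c r0 u).r.g u n
  mono u k n v hu hk hg := gω_mono hu (Reach.refl.step hk) hg
  bdd u n v hu hg := (sg c r0 u).r.bdd u n v (by rw [sg_stem hu]; exact Reach.refl) hg
  free β h0 hβ m := by
    have hr : ∀ i, Reach (Aω c r0) r0.stem (β i) := by
      intro i
      have := path_reach hβ 0 i
      rw [zero_add] at this
      exact h0.trans this
    have hle : ∀ i j, sg c r0 (β (i + j)) ≤ sg c r0 (β i) := fun i j =>
      sg_le (hr i) (path_reach hβ i j)
    by_cases hb : ∃ i, m < (sg c r0 (β i)).k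
    · obtain ⟨i, hi⟩ := hb
      obtain ⟨n, hn, hmn⟩ : ∃ n ∈ (sg c r0 (β i)).Φ, m ≤ n := by
        by_contra hcon
        push Not at hcon
        have h1 : (sg c r0 (β i)).Φ ⊆ Finset.range m := fun n hn => Finset.mem_range.2 (hcon n hn)
        have h2 := Finset.card_le_card h1
        rw [(sg c r0 (β i)).card, Finset.card_range] at h2
        omega
      refine ⟨n, hmn, fun j => ?_⟩
      have h1 : ∀ j, (sg c r0 (β (i + j))).r.g (β (i + j)) n = none := fun j =>
        (sg c r0 (β (i + j))).free _ (by rw [sg_stem (hr _)]; exact Reach.refl) n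
          ((hle i j).2.1 hn)
      rcases le_total i j with hij | hij
      · obtain ⟨d, rfl⟩ := Nat.exists_eq_add_of_le hij
        exact h1 d
      · obtain ⟨d, rfl⟩ := Nat.exists_eq_add_of_le hij
        by_contra hne
        obtain ⟨v, hv⟩ := Option.ne_none_iff_exists'.1 hne
        have h2 := gω_mono (hr j) (path_reach hβ j d) hv
        have h3 := h1 0
        rw [add_zero] at h3
        rw [h3] at h2
        cases h2
    · push Not at hb
      obtain ⟨i, hi⟩ : ∃ i, ∀ j, (sg c r0 (β (i + j))).k = (sg c r0 (β i)).k := by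
        have hbd : BddAbove (Set.range fun i => (sg c r0 (β i)).k) := ⟨m, by
          rintro _ ⟨i, rfl⟩
          exact hb i⟩
        obtain ⟨i, hi⟩ : sSup (Set.range fun i => (sg c r0 (β i)).k) ∈
            Set.range fun i => (sg c r0 (β i)).k := Nat.sSup_mem ⟨_, 0, rfl⟩ hbd
        refine ⟨i, fun j => le_antisymm ?_ (hle i j).2.2.1⟩
        have hi : (sg c r0 (β i)).k = _ := hi
        rw [hi]
        exact le_csSup hbd ⟨i + j, rfl⟩
      have hrs : Reach (sg c r0 (β i)).r.A (sg c r0 (β i)).r.stem (β i) := by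
        rw [sg_stem (hr i)]; exact Reach.refl
      obtain ⟨n, hn, hn'⟩ := (sg c r0 (β i)).r.free (fun j => β (i + j)) hrs
        (fun j => (hβ (i + j)).mono fun v hv => Aω_subset (hr i) ((path_reach hβ i j).trans hv)) m
      have h1 : ∀ j, (sg c r0 (β (i + j))).r.g (β (i + j)) n = none := by
        intro j
        rw [((hle i j).2.2.2.2 (hi j)).1]
        exact hn' j
      refine ⟨n, hn, fun j => ?_⟩
      rcases le_total i j with hij | hij
      · obtain ⟨d, rfl⟩ := Nat.exists_eq_add_of_le hij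
        exact h1 d
      · obtain ⟨d, rfl⟩ := Nat.exists_eq_add_of_le hij
        by_contra hne
        obtain ⟨v, hv⟩ := Option.ne_none_iff_exists'.1 hne
        have h2 := gω_mono (hr j) (path_reach hβ j d) hv
        have h3 := h1 0
        rw [add_zero] at h3
        rw [h3] at h2
        cases h2

theorem rω_le : rω c r0 ≤ r0 := by
  have hinit : sg c r0 r0.stem ≤ Stg.init c r0 := by
    rw [sg_stem0 rfl]
    exact Stg.grow_le _
  refine ⟨⟨Reach.refl, fun u hu => ?_⟩, fun u n v hu hg => ?_⟩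
  · have hu : Reach (Aω c r0) r0.stem u := hu
    have h1 : sg c r0 u ≤ Stg.init c r0 := (sg_le Reach.refl hu).trans hinit
    exact RR.A_subset h1.1 (u := u) (by rw [sg_stem hu]; exact Reach.refl)
  · have hu : Reach (Aω c r0) r0.stem u := hu
    have h1 : sg c r0 u ≤ Stg.init c r0 := (sg_le Reach.refl hu).trans hinit
    exact h1.1.2 u n v (by rw [sg_stem hu]; exact Reach.refl) hg

/-- conditions below the condition that is constructed are below the stages -/
theorem below_pr {q : Laver} (hq : q ≤ (rω c r0).pr) {u : List ℕ}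
    (hu : Reach (Aω c r0) r0.stem u) (hw : Reach (Aω c r0) u q.stem) :
    q ≤ (sg c r0 u).r.pr := by
  have hA : ∀ w, Reach q.A q.stem w → Reach (Aω c r0) q.stem w := fun w h => h.mono hq.2
  refine ⟨?_, fun w h => ?_⟩
  · show Reach (sg c r0 u).r.A (sg c r0 u).r.stem q.stem
    rw [sg_stem hu]
    exact hw.mono fun v hv => Aω_subset hu hv
  · exact (hq.2 w h).trans (Aω_subset hu (hw.trans (hA w h)))

theorem below {z : RR} (hz : z ≤ rω c r0) {u : List ℕ}
    (hu : Reach (Aω c r0) r0.stem u) (hw : Reach (Aω c r0) u z.stem) : z ≤ (sg c r0 u).r := by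
  refine ⟨below_pr (RR.pr_mono hz) hu hw, fun w n v h hg => ?_⟩
  refine hz.2 w n v h ?_
  have hA : Reach (Aω c r0) z.stem w := h.mono hz.1.2
  exact gω_of hu (hw.trans hA) hg

end

end Pool.Agent.H458R3.HC
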